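import Pool.Agent.H25.DI.Smi
import Pool.Agent.H98.RH.Defs

/-!
# H25 DI, Lat: lattices of matrices
-/

set_option autoImplicit false

namespace Pool.Agent.H25.DI

open Matrix Pool.Agent.H54.TT Pool.Agent.H10.RA Pool.Agent.H98.RH

section

variable {F : Type} [Field F] {n : ℕ}

/-- the diagonal matrix with the powers of the uniformiser -/
def dg (π : Fˣ) (d : Fin n → ℤ) : GL (Fin n) F where
  val := Matrix.diagonal fun i => ((π ^ d i : Fˣ) : F)
  inv := Matrix.diagonal fun i => ((π ^ (-d i) : Fˣ) : F)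
  val_inv := by
    rw [Matrix.diagonal_mul_diagonal, ← Matrix.diagonal_one]
    congr 1
    funext i
    rw [← Units.val_mul, ← _root_.zpow_add, add_neg_cancel, _root_.zpow_zero, Units.val_one]
  inv_val := by
    rw [Matrix.diagonal_mul_diagonal, ← Matrix.diagonal_one]
    congr 1
    funext i
    rw [← Units.val_mul, ← _root_.zpow_add, neg_add_cancel, _root_.zpow_zero, Units.val_one]

theorem dg_val (π : Fˣ) (d : Fin n → ℤ) : (dg π d).val = Matrix.diagonal fun i => ((π ^ d i : Fˣ) : F) := rfl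

theorem dg_inv (π : Fˣ) (d : Fin n → ℤ) : (dg π d)⁻¹ = dg π (fun i => -d i) := by
  apply Units.ext
  rfl

variable {v : F → ℤ} (hv : IsDV v)
include hv

theorem v_zpow {π : Fˣ} (hπ : v π = 1) (k : ℤ) : v ((π ^ k : Fˣ) : F) = k := by
  have h0 : ∀ m : ℕ, v ((π ^ m : Fˣ) : F) = m := by
    intro m
    induction m with
    | zero =>
      rw [pow_zero, Units.val_one, hv.one]
      rfl
    | succ m ih =>
      rw [pow_succ, Units.val_mul, hv.mul _ _ (Units.ne_zero _) (Units.ne_zero _), ih, hπ]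
      push_cast
      ring
  cases k with
  | ofNat m => rw [Int.ofNat_eq_natCast, zpow_natCast, h0]
  | negSucc m =>
    rw [zpow_negSucc, Units.val_inv_eq_inv_val, hv.inv (Units.ne_zero _), h0, Int.negSucc_eq]
    push_cast
    ring

theorem ge_zpow {π : Fˣ} (hπ : v π = 1) (k : ℤ) (x : F) : Ge v 0 (((π ^ (-k) : Fˣ) : F) * x) ↔ Ge v k x := by
  constructor
  · intro h hx
    have h1 := h (mul_ne_zero (Units.ne_zero _) hx)
    rw [hv.mul _ _ (Units.ne_zero _) hx, v_zpow hv hπ] at h1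
    linarith
  · intro h hx
    have h2 : x ≠ 0 := right_ne_zero_of_mul hx
    have h1 := h h2
    rw [hv.mul _ _ (Units.ne_zero _) h2, v_zpow hv hπ]
    linarith

theorem int_mul {g h : GL (Fin n) F} (hg : Int v g) (hh : Int v h) : Int v (g * h) := by
  refine ⟨fun i j => ?_, ?_⟩
  · have := geN_mul hv (k := 0) (l := 0) hg.1 hh.1 i j
    rw [add_zero] at this
    exact this
  · have h1 := vdet_mul hv g h
    have h2 : v g.det.val = 0 := hg.2
    have h3 : v h.det.val = 0 := hh.2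
    rw [h2, h3, add_zero] at h1
    exact h1

theorem int_inv {g : GL (Fin n) F} (hg : Int v g) : Int v g⁻¹ := by
  refine ⟨fun i j => ?_, ?_⟩
  · have := geN_inv hv (k := 0) hg.1 (by rw [mul_zero]; exact hg.2) i j
    rw [neg_zero] at this
    exact this
  · have := vdet_inv hv g
    have h1 : v g.det.val = 0 := hg.2
    rw [h1, neg_zero] at this
    exact this

/-- THE SMITH FORM -/
theorem smith {π : Fˣ} (hπ : v π = 1) (C : GL (Fin n) F) :
    ∃ (U U' : GL (Fin n) F) (d : Fin n → ℤ), Int v U ∧ Int v U' ∧ C = U * dg π d * U' := by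
  obtain ⟨U, U', hU, hU', d, h1⟩ := smith_aux hv n (Fin n) C.val (Fintype.card_fin n)
  have hdet : (Matrix.diagonal d).det ≠ 0 := by
    rw [← h1, Matrix.det_mul, Matrix.det_mul]
    exact mul_ne_zero (mul_ne_zero hU.2.1 C.det.ne_zero) hU'.2.1
  rw [Matrix.det_diagonal, Finset.prod_ne_zero_iff] at hdet
  have hd : ∀ i, d i ≠ 0 := fun i => hdet i (Finset.mem_univ i)
  obtain ⟨u, hu⟩ : ∃ u : Fin n → F, ∀ i, u i = ((π ^ (-v (d i)) : Fˣ) : F) * d i := ⟨_, fun _ => rfl⟩
  have hu0 : ∀ i, u i ≠ 0 := fun i => by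
    rw [hu]
    exact mul_ne_zero (Units.ne_zero _) (hd i)
  have huv : ∀ i, v (u i) = 0 := fun i => by
    rw [hu, hv.mul _ _ (Units.ne_zero _) (hd i), v_zpow hv hπ]
    ring
  have hud : (Matrix.diagonal u).det ≠ 0 := by
    rw [Matrix.det_diagonal]
    exact Finset.prod_ne_zero_iff.2 fun i _ => hu0 i
  have hui : IM v (Matrix.diagonal u) := by
    refine ⟨fun i j => ?_, hud, ?_⟩
    · rw [Matrix.diagonal_apply]
      refine ge_ite ?_ (ge_zero hv 0)
      intro _
      rw [huv]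
    · rw [Matrix.det_diagonal]
      have : ∀ s : Finset (Fin n), v (∏ i ∈ s, u i) = 0 := by
        intro s
        induction s using Finset.induction_on with
        | empty => rw [Finset.prod_empty, hv.one]
        | insert a s ha ih =>
          rw [Finset.prod_insert ha, hv.mul _ _ (hu0 a) (Finset.prod_ne_zero_iff.2 fun i _ => hu0 i), huv, ih, add_zero]
      exact this _
  obtain ⟨gU, hgU⟩ : ∃ g : GL (Fin n) F, g.val = U := ⟨Matrix.GeneralLinearGroup.mkOfDetNeZero U hU.2.1, rfl⟩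
  obtain ⟨gU', hgU'⟩ : ∃ g : GL (Fin n) F, g.val = U' := ⟨Matrix.GeneralLinearGroup.mkOfDetNeZero U' hU'.2.1, rfl⟩
  obtain ⟨gu, hgu⟩ : ∃ g : GL (Fin n) F, g.val = Matrix.diagonal u := ⟨Matrix.GeneralLinearGroup.mkOfDetNeZero _ hud, rfl⟩
  have iU : Int v gU := ⟨by rw [hgU]; exact hU.1, by rw [hgU]; exact hU.2.2⟩
  have iU' : Int v gU' := ⟨by rw [hgU']; exact hU'.1, by rw [hgU']; exact hU'.2.2⟩
  have iu : Int v gu := ⟨by rw [hgu]; exact hui.1, by rw [hgu]; exact hui.2.2⟩
  refine ⟨gU⁻¹, gu * gU'⁻¹, fun i => v (d i), int_inv hv iU, int_mul hv iu (int_inv hv iU'), ?_⟩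
  have h2 : gU * C * gU' = dg π (fun i => v (d i)) * gu := by
    apply Units.ext
    rw [Units.val_mul, Units.val_mul, hgU, hgU', h1, Units.val_mul, hgu, dg_val, Matrix.diagonal_mul_diagonal]
    congr 1
    funext i
    rw [hu, ← mul_assoc, ← Units.val_mul, ← _root_.zpow_add, add_neg_cancel, _root_.zpow_zero, Units.val_one, one_mul]
  calc C = gU⁻¹ * (gU * C * gU') * gU'⁻¹ := by group
    _ = gU⁻¹ * dg π (fun i => v (d i)) * (gu * gU'⁻¹) := by
        rw [h2]
        simp only [mul_assoc]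

omit hv in
theorem inv_mulVec (g : GL (Fin n) F) (x : Fin n → F) : (g⁻¹).val.mulVec (g.val.mulVec x) = x := by
  rw [Matrix.mulVec_mulVec, ← Units.val_mul, inv_mul_cancel, Units.val_one, Matrix.one_mulVec]

omit hv in
theorem mulVec_inv (g : GL (Fin n) F) (x : Fin n → F) : g.val.mulVec ((g⁻¹).val.mulVec x) = x := by
  rw [Matrix.mulVec_mulVec, ← Units.val_mul, mul_inv_cancel, Units.val_one, Matrix.one_mulVec]

omit hv in
theorem mem_LM (hv : IsDV v) {g : GL (Fin n) F} {x : Fin n → F} :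
    x ∈ LM hv g ↔ ∀ i, Ge v 0 ((g⁻¹).val.mulVec x i) := by
  constructor
  · rintro ⟨y, hy, rfl⟩ i
    show Ge v 0 ((g⁻¹).val.mulVec (g.val.mulVec y) i)
    rw [inv_mulVec]
    exact hy i
  · intro h
    exact ⟨(g⁻¹).val.mulVec x, h, mulVec_inv g x⟩

omit hv in
theorem mem_LM_dg (hv : IsDV v) {π : Fˣ} (hπ : v π = 1) {g : GL (Fin n) F} {d : Fin n → ℤ} {x : Fin n → F} :
    x ∈ LM hv (g * dg π d) ↔ ∀ i, Ge v (d i) ((g⁻¹).val.mulVec x i) := by
  rw [mem_LM, _root_.mul_inv_rev, dg_inv]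
  refine forall_congr' fun i => ?_
  rw [Units.val_mul, ← Matrix.mulVec_mulVec, dg_val, Matrix.mulVec_diagonal, ge_zpow hv hπ]

omit hv in
theorem LM_le_iff (hv : IsDV v) {g g' : GL (Fin n) F} :
    LM hv g ≤ LM hv g' ↔ ∀ i j, Ge v 0 ((g'⁻¹ * g).val i j) := by
  constructor
  · intro h i j
    have h1 : g.val.mulVec (Pi.single j 1) ∈ LM hv g := by
      rw [mem_LM]
      intro a
      rw [inv_mulVec, Pi.single_apply]
      exact ge_ite (ge_one hv) (ge_zero hv 0)
    have h2 := (mem_LM hv).1 (h h1) i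
    rw [Matrix.mulVec_mulVec, Matrix.mulVec_single_one] at h2
    exact h2
  · intro h x hx
    rw [mem_LM] at hx ⊢
    intro i
    have e : (g'⁻¹).val.mulVec x = (g'⁻¹ * g).val.mulVec ((g⁻¹).val.mulVec x) := by
      rw [Units.val_mul, ← Matrix.mulVec_mulVec, mulVec_inv]
    rw [e, Matrix.mulVec, dotProduct]
    refine ge_sum hv _ fun a _ => ?_
    have := ge_mul hv (h i a) (hx a)
    rwa [add_zero] at this

omit hv in
theorem LM_mul_int (hv : IsDV v) {g u : GL (Fin n) F} (hu : Int v u) : LM hv (g * u) = LM hv g := by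
  refine le_antisymm ?_ ?_
  · rw [LM_le_iff, inv_mul_cancel_left]
    exact hu.1
  · rw [LM_le_iff, _root_.mul_inv_rev, inv_mul_cancel_right]
    exact (int_inv hv hu).1

omit hv in
theorem LM_sup (hv : IsDV v) {π : Fˣ} (hπ : v π = 1) (g : GL (Fin n) F) (d : Fin n → ℤ) :
    LM hv g ⊔ LM hv (g * dg π d) = LM hv (g * dg π fun i => min 0 (d i)) := by
  refine le_antisymm (sup_le ?_ ?_) ?_
  · intro x hx
    rw [mem_LM] at hx
    rw [mem_LM_dg hv hπ]
    exact fun i => (hx i).mono' hv (min_le_left _ _)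
  · intro x hx
    rw [mem_LM_dg hv hπ] at hx ⊢
    exact fun i => (hx i).mono' hv (min_le_right _ _)
  · intro x hx
    rw [mem_LM_dg hv hπ] at hx
    obtain ⟨y, hy⟩ : ∃ y, y = (g⁻¹).val.mulVec x := ⟨_, rfl⟩
    have hx' : x = g.val.mulVec y := by
      rw [hy, mulVec_inv]
    have h1 : g.val.mulVec (fun i => if 0 ≤ d i then y i else 0) ∈ LM hv g := by
      rw [mem_LM]
      intro i
      rw [inv_mulVec]
      split_ifs with h
      · have := hx i
        rw [min_eq_left h, ← hy] at this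
        exact this
      · exact ge_zero hv 0
    have h2 : g.val.mulVec (fun i => if 0 ≤ d i then 0 else y i) ∈ LM hv (g * dg π d) := by
      rw [mem_LM_dg hv hπ]
      intro i
      rw [inv_mulVec]
      split_ifs with h
      · exact ge_zero hv _
      · have := hx i
        rw [min_eq_right (by omega), ← hy] at this
        exact this
    have h3 : x = g.val.mulVec (fun i => if 0 ≤ d i then y i else 0) + g.val.mulVec (fun i => if 0 ≤ d i then 0 else y i) := by
      rw [← Matrix.mulVec_add, hx']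
      congr 1
      funext i
      rw [Pi.add_apply]
      split_ifs
      · rw [add_zero]
      · rw [zero_add]
    rw [h3]
    exact Submodule.add_mem_sup h1 h2

omit hv in
theorem LM_inf (hv : IsDV v) {π : Fˣ} (hπ : v π = 1) (g : GL (Fin n) F) (d : Fin n → ℤ) :
    LM hv g ⊓ LM hv (g * dg π d) = LM hv (g * dg π fun i => max 0 (d i)) := by
  ext x
  rw [Submodule.mem_inf, mem_LM, mem_LM_dg hv hπ, mem_LM_dg hv hπ]
  constructor
  · rintro ⟨h1, h2⟩ i hi
    exact max_le (h1 i hi) (h2 i hi)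
  · intro h
    exact ⟨fun i => (h i).mono' hv (le_max_left _ _), fun i => (h i).mono' hv (le_max_right _ _)⟩

omit hv in
theorem LM_sc (hv : IsDV v) {π : Fˣ} (g : GL (Fin n) F) (k : ℤ) :
    (LM hv g).map (((LinearMap.lsmul F (Fin n → F)) ((π ^ k : Fˣ) : F)).restrictScalars (Ov hv)) =
      LM hv (dg π (fun _ => k) * g) := by
  have key : ∀ (k : ℤ) (x : Fin n → F), (dg π (fun _ : Fin n => k)).val.mulVec x = ((π ^ k : Fˣ) : F) • x := by
    intro k x
    funext i
    rw [dg_val, Matrix.mulVec_diagonal, Pi.smul_apply, smul_eq_mul]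
  ext x
  rw [mem_LM, _root_.mul_inv_rev, dg_inv, Units.val_mul, ← Matrix.mulVec_mulVec, key]
  constructor
  · rintro ⟨y, hy, rfl⟩
    have h1 := (mem_LM hv).1 hy
    have e : ((π ^ (-k) : Fˣ) : F) • ((((LinearMap.lsmul F (Fin n → F)) ((π ^ k : Fˣ) : F)).restrictScalars (Ov hv)) y) = y := by
      show ((π ^ (-k) : Fˣ) : F) • (((π ^ k : Fˣ) : F) • y) = y
      rw [smul_smul, ← Units.val_mul, ← _root_.zpow_add, neg_add_cancel, _root_.zpow_zero, Units.val_one, one_smul]
    rw [e]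
    exact h1
  · intro h
    refine ⟨((π ^ (-k) : Fˣ) : F) • x, (mem_LM hv).2 h, ?_⟩
    show ((π ^ k : Fˣ) : F) • (((π ^ (-k) : Fˣ) : F) • x) = x
    rw [smul_smul, ← Units.val_mul, ← _root_.zpow_add, add_neg_cancel, _root_.zpow_zero, Units.val_one, one_smul]

/-- two lattices have a common basis, their sum and their intersection -/
theorem LM_two {π : Fˣ} (hπ : v π = 1) {g g' U U' : GL (Fin n) F} {d : Fin n → ℤ} (hU : Int v U) (hU' : Int v U')
    (h : g' = g * U * dg π d * U') :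
    LM hv g ⊔ LM hv g' = LM hv (g * U * dg π fun i => min 0 (d i)) ∧
      LM hv g ⊓ LM hv g' = LM hv (g * U * dg π fun i => max 0 (d i)) := by
  have h1 : LM hv g = LM hv (g * U) := (LM_mul_int hv hU).symm
  have h2 : LM hv g' = LM hv (g * U * dg π d) := by
    rw [h, LM_mul_int hv hU']
  rw [h1, h2]
  exact ⟨LM_sup hv hπ _ _, LM_inf hv hπ _ _⟩

end

end Pool.Agent.H25.DI
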