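import Pool.Agent.H25.DI.Img

/-!
# H25 DI, Dic: the dictionary

For a finite set of lattice terms over a field with a discrete valuation there is a finite set of elements of the field such
that a ring homomorphism which preserves their valuations preserves the values of the terms and the inclusions.
-/

set_option autoImplicit false

namespace Pool.Agent.H25.DI

open Matrix Pool.Agent.H54.TT Pool.Agent.H10.RA Pool.Agent.H98.RH

variable {F : Type} [Field F] {v : F → ℤ} {n : ℕ} {H : Type}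

/-- the uniformiser and the entries of the matrices are in the set -/
structure Bas (π : Fˣ) (ρ : H → GL (Fin n) F) (S : Finset F) : Prop where
  pi : (π : F) ∈ S
  pi' : ((π⁻¹ : Fˣ) : F) ∈ S
  en : ∀ h, En (ρ h) ⊆ S

theorem term (hv : IsDV v) (π : Fˣ) (hπ : v π = 1) (ρ : H → GL (Fin n) F) (t : H98.RH.LT H) :
    ∃ (S : Finset F) (B : GL (Fin n) F), ev hv π ρ t = LM hv B ∧
      ∀ (S' : Finset F) (A : Subring F) (L : Type) [Field L] (w : L → ℤ) (hw : IsDV w) (f : A →+* L), Bas π ρ S' → S ⊆ S' →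
        Pres v w S' A f → InG A B ∧ ∀ (π' : Lˣ) (ρ' : H → GL (Fin n) L), (∀ x : A, (x : F) = π → (π' : L) = f x) →
          (∀ h, IG f (ρ h) (ρ' h)) → ∀ b : GL (Fin n) L, IG f B b → ev hw π' ρ' t = LM hw b := by
  classical
  induction t with
  | sym h =>
    refine ⟨∅, ρ h, rfl, fun S' A L _ w hw f hb _ hP => ⟨InG.of_sub hP (hb.en h), ?_⟩⟩
    intro π' ρ' _ hρ b hb'
    rw [← (hρ h).unique hb']
    rfl
  | sc k t ih =>
    obtain ⟨S, B, h1, h2⟩ := ih
    refine ⟨S, dg π (fun _ => k) * B, ?_, fun S' A L _ w hw f hb hS hP => ?_⟩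
    · show (ev hv π ρ t).map _ = _
      rw [h1]
      exact LM_sc hv B k
    · obtain ⟨h3, h4⟩ := h2 S' A L w hw f hb hS hP
      have hpA := hP.sub _ hb.pi
      have hpA' := hP.sub _ hb.pi'
      refine ⟨(InG.dg hpA hpA' _).mul h3, fun π' ρ' hπ' hρ b hb' => ?_⟩
      obtain ⟨b0, hb0⟩ := IG.exists f h3
      have h5 : b = dg π' (fun _ => k) * b0 := hb'.unique ((IG.dg hpA hpA' hπ' _).mul hb0)
      show (ev hw π' ρ' t).map _ = _
      rw [h4 π' ρ' hπ' hρ b0 hb0, h5]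
      exact LM_sc hw b0 k
  | sum t t' ih ih' =>
    obtain ⟨S1, B1, h1, h2⟩ := ih
    obtain ⟨S2, B2, h3, h4⟩ := ih'
    obtain ⟨U, U', d, hU, hU', hC⟩ := smith hv hπ (B1⁻¹ * B2)
    have hC' : B2 = B1 * U * dg π d * U' := by
      have : B2 = B1 * (B1⁻¹ * B2) := by group
      rw [this, hC]
      simp only [mul_assoc]
    refine ⟨S1 ∪ S2 ∪ En U ∪ En U', B1 * U * dg π (fun i => min 0 (d i)), ?_, fun S' A L _ w hw f hb hS hP => ?_⟩
    · show ev hv π ρ t ⊔ ev hv π ρ t' = _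
      rw [h1, h3]
      exact (LM_two hv hπ hU hU' hC').1
    · have hS1 : S1 ⊆ S' := fun x hx => hS (Finset.mem_union_left _ (Finset.mem_union_left _ (Finset.mem_union_left _ hx)))
      have hS2 : S2 ⊆ S' := fun x hx => hS (Finset.mem_union_left _ (Finset.mem_union_left _ (Finset.mem_union_right _ hx)))
      have hS3 : En U ⊆ S' := fun x hx => hS (Finset.mem_union_left _ (Finset.mem_union_right _ hx))
      have hS4 : En U' ⊆ S' := fun x hx => hS (Finset.mem_union_right _ hx)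
      obtain ⟨g1, g1'⟩ := h2 S' A L w hw f hb hS1 hP
      obtain ⟨g2, g2'⟩ := h4 S' A L w hw f hb hS2 hP
      have hpA := hP.sub _ hb.pi
      have hpA' := hP.sub _ hb.pi'
      have gU := InG.of_sub hP hS3
      have gU' := InG.of_sub hP hS4
      refine ⟨(g1.mul gU).mul (InG.dg hpA hpA' _), fun π' ρ' hπ' hρ b hb' => ?_⟩
      have hwp : w (π' : L) = 1 := by
        rw [hπ' ⟨π, hpA⟩ rfl, hP.val ⟨π, hpA⟩ hb.pi (Units.ne_zero _)]
        exact hπ
      obtain ⟨b1, hb1⟩ := IG.exists f g1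
      obtain ⟨b2, hb2⟩ := IG.exists f g2
      obtain ⟨u, hu⟩ := IG.exists f gU
      obtain ⟨u', hu'⟩ := IG.exists f gU'
      have e1 : b2 = b1 * u * dg π' d * u' := by
        have h5 := ((hb1.mul hu).mul (IG.dg hpA hpA' hπ' d)).mul hu'
        rw [← hC'] at h5
        exact hb2.unique h5
      have e2 : b = b1 * u * dg π' (fun i => min 0 (d i)) := hb'.unique ((hb1.mul hu).mul (IG.dg hpA hpA' hπ' _))
      show ev hw π' ρ' t ⊔ ev hw π' ρ' t' = _
      rw [g1' π' ρ' hπ' hρ b1 hb1, g2' π' ρ' hπ' hρ b2 hb2, e2]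
      exact (LM_two hw hwp (int_img hP hS3 hU hu) (int_img hP hS4 hU' hu') e1).1
  | inf t t' ih ih' =>
    obtain ⟨S1, B1, h1, h2⟩ := ih
    obtain ⟨S2, B2, h3, h4⟩ := ih'
    obtain ⟨U, U', d, hU, hU', hC⟩ := smith hv hπ (B1⁻¹ * B2)
    have hC' : B2 = B1 * U * dg π d * U' := by
      have : B2 = B1 * (B1⁻¹ * B2) := by group
      rw [this, hC]
      simp only [mul_assoc]
    refine ⟨S1 ∪ S2 ∪ En U ∪ En U', B1 * U * dg π (fun i => max 0 (d i)), ?_, fun S' A L _ w hw f hb hS hP => ?_⟩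
    · show ev hv π ρ t ⊓ ev hv π ρ t' = _
      rw [h1, h3]
      exact (LM_two hv hπ hU hU' hC').2
    · have hS1 : S1 ⊆ S' := fun x hx => hS (Finset.mem_union_left _ (Finset.mem_union_left _ (Finset.mem_union_left _ hx)))
      have hS2 : S2 ⊆ S' := fun x hx => hS (Finset.mem_union_left _ (Finset.mem_union_left _ (Finset.mem_union_right _ hx)))
      have hS3 : En U ⊆ S' := fun x hx => hS (Finset.mem_union_left _ (Finset.mem_union_right _ hx))
      have hS4 : En U' ⊆ S' := fun x hx => hS (Finset.mem_union_right _ hx)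
      obtain ⟨g1, g1'⟩ := h2 S' A L w hw f hb hS1 hP
      obtain ⟨g2, g2'⟩ := h4 S' A L w hw f hb hS2 hP
      have hpA := hP.sub _ hb.pi
      have hpA' := hP.sub _ hb.pi'
      have gU := InG.of_sub hP hS3
      have gU' := InG.of_sub hP hS4
      refine ⟨(g1.mul gU).mul (InG.dg hpA hpA' _), fun π' ρ' hπ' hρ b hb' => ?_⟩
      have hwp : w (π' : L) = 1 := by
        rw [hπ' ⟨π, hpA⟩ rfl, hP.val ⟨π, hpA⟩ hb.pi (Units.ne_zero _)]
        exact hπ
      obtain ⟨b1, hb1⟩ := IG.exists f g1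
      obtain ⟨b2, hb2⟩ := IG.exists f g2
      obtain ⟨u, hu⟩ := IG.exists f gU
      obtain ⟨u', hu'⟩ := IG.exists f gU'
      have e1 : b2 = b1 * u * dg π' d * u' := by
        have h5 := ((hb1.mul hu).mul (IG.dg hpA hpA' hπ' d)).mul hu'
        rw [← hC'] at h5
        exact hb2.unique h5
      have e2 : b = b1 * u * dg π' (fun i => max 0 (d i)) := hb'.unique ((hb1.mul hu).mul (IG.dg hpA hpA' hπ' _))
      show ev hw π' ρ' t ⊓ ev hw π' ρ' t' = _
      rw [g1' π' ρ' hπ' hρ b1 hb1, g2' π' ρ' hπ' hρ b2 hb2, e2]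
      exact (LM_two hw hwp (int_img hP hS3 hU hu) (int_img hP hS4 hU' hu') e1).2

/-- DICTIONARY -/
theorem dict (hv : IsDV v) (π : Fˣ) (hπ : v π = 1) [Finite H]
    (ρ : H → GL (Fin n) F) (T : Set (H98.RH.LT H)) (hT : T.Finite) :
    ∃ (S : Finset F) (B : H98.RH.LT H → GL (Fin n) F), (∀ t ∈ T, ev hv π ρ t = LM hv (B t)) ∧
      ∀ (A : Subring F) (L : Type) [Field L] (w : L → ℤ) (hw : IsDV w) (f : A →+* L), Pres v w S A f →
        (∀ h i j, (ρ h).val i j ∈ A) ∧ (∀ t ∈ T, ∀ i j, (B t).val i j ∈ A) ∧ (π : F) ∈ A ∧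
        ∀ (π' : Lˣ) (ρ' : H → GL (Fin n) L) (B' : H98.RH.LT H → GL (Fin n) L), (∀ x : A, (x : F) = π → (π' : L) = f x) →
          (∀ h i j, ∀ x : A, (x : F) = (ρ h).val i j → (ρ' h).val i j = f x) →
          (∀ t ∈ T, ∀ i j, ∀ x : A, (x : F) = (B t).val i j → (B' t).val i j = f x) →
          (∀ t ∈ T, ev hw π' ρ' t = LM hw (B' t)) ∧
          ∀ t ∈ T, ∀ t' ∈ T, (ev hw π' ρ' t ≤ ev hw π' ρ' t' ↔ ev hv π ρ t ≤ ev hv π ρ t') := by
  classical
  have := Fintype.ofFinite H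
  choose S B hB hS using term hv π hπ ρ
  obtain ⟨R, hR⟩ : ∃ R : Finset F, (({(π : F), ((π⁻¹ : Fˣ) : F)} ∪ Finset.univ.biUnion fun h => En (ρ h)) ∪
      hT.toFinset.biUnion fun t => S t) ∪ (hT.toFinset ×ˢ hT.toFinset).biUnion (fun p => En ((B p.2)⁻¹ * B p.1)) = R :=
    ⟨_, rfl⟩
  have hbas : Bas π ρ R := by
    refine ⟨?_, ?_, fun h x hx => ?_⟩
    · rw [← hR]
      simp
    · rw [← hR]
      simp
    · rw [← hR]
      refine Finset.mem_union_left _ (Finset.mem_union_left _ (Finset.mem_union_right _ ?_))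
      exact Finset.mem_biUnion.2 ⟨h, Finset.mem_univ _, hx⟩
  have hsub : ∀ t ∈ T, S t ⊆ R := by
    intro t ht x hx
    rw [← hR]
    refine Finset.mem_union_left _ (Finset.mem_union_right _ ?_)
    exact Finset.mem_biUnion.2 ⟨t, hT.mem_toFinset.2 ht, hx⟩
  have hsub2 : ∀ t ∈ T, ∀ t' ∈ T, En ((B t')⁻¹ * B t) ⊆ R := by
    intro t ht t' ht' x hx
    rw [← hR]
    refine Finset.mem_union_right _ ?_
    exact Finset.mem_biUnion.2 ⟨(t, t'), Finset.mem_product.2 ⟨hT.mem_toFinset.2 ht, hT.mem_toFinset.2 ht'⟩, hx⟩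
  refine ⟨R, B, fun t _ => hB t, fun A L _ w hw f hP => ?_⟩
  have hρA : ∀ h, InG A (ρ h) := fun h => InG.of_sub hP (hbas.en h)
  have hBA : ∀ t ∈ T, InG A (B t) := fun t ht => (hS t R A L w hw f hbas (hsub t ht) hP).1
  refine ⟨fun h => (hρA h).1, fun t ht => (hBA t ht).1, hP.sub _ hbas.pi, ?_⟩
  intro π' ρ' B' hπ' hρ' hB'
  have h1 : ∀ h, IG f (ρ h) (ρ' h) := fun h => IG.of (Im.of (hρA h).1 (hρ' h)) (hρA h).2
  have h2 : ∀ t ∈ T, IG f (B t) (B' t) := fun t ht => IG.of (Im.of (hBA t ht).1 (hB' t ht)) (hBA t ht).2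
  have h3 : ∀ t ∈ T, ev hw π' ρ' t = LM hw (B' t) := fun t ht =>
    (hS t R A L w hw f hbas (hsub t ht) hP).2 π' ρ' hπ' h1 (B' t) (h2 t ht)
  refine ⟨h3, fun t ht t' ht' => ?_⟩
  rw [h3 t ht, h3 t' ht', hB t, hB t', LM_le_iff, LM_le_iff]
  have h4 : IG f ((B t')⁻¹ * B t) ((B' t')⁻¹ * B' t) := (h2 t' ht').inv.mul (h2 t ht)
  refine forall_congr' fun i => forall_congr' fun j => ?_
  obtain ⟨x, hx, hx'⟩ := h4.1.apply i j
  rw [← hx, ← hx']
  refine (ge_iff hP ?_).symm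
  rw [hx]
  exact hsub2 t ht t' ht' (mem_En _ i j)

end Pool.Agent.H25.DI
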