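import Pool.Agent.H25.DI.Lat

/-!
# H25 DI, Img: images of matrices under a ring homomorphism of a subring
-/

set_option autoImplicit false

namespace Pool.Agent.H25.DI

open Matrix Pool.Agent.H54.TT Pool.Agent.H10.RA Pool.Agent.H98.RH

variable {F : Type} [Field F] {A : Subring F} {L : Type} [Field L] {n : ℕ}

/-- `M'` is the image of the matrix `M` with entries in `A` -/
def Im (f : A →+* L) (M : Matrix (Fin n) (Fin n) F) (M' : Matrix (Fin n) (Fin n) L) : Prop :=
  ∃ M0 : Matrix (Fin n) (Fin n) A, M0.map A.subtype = M ∧ M0.map f = M'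

theorem Im.apply {f : A →+* L} {M : Matrix (Fin n) (Fin n) F} {M' : Matrix (Fin n) (Fin n) L} (h : Im f M M')
    (i j : Fin n) : ∃ x : A, (x : F) = M i j ∧ f x = M' i j := by
  obtain ⟨M0, rfl, rfl⟩ := h
  exact ⟨M0 i j, rfl, rfl⟩

theorem Im.of {f : A →+* L} {M : Matrix (Fin n) (Fin n) F} {M' : Matrix (Fin n) (Fin n) L} (h : ∀ i j, M i j ∈ A)
    (h' : ∀ i j, ∀ x : A, (x : F) = M i j → M' i j = f x) : Im f M M' := by
  refine ⟨Matrix.of fun i j => ⟨M i j, h i j⟩, ?_, ?_⟩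
  · ext i j
    rfl
  · ext i j
    exact (h' i j ⟨M i j, h i j⟩ rfl).symm

theorem Im.exists (f : A →+* L) {M : Matrix (Fin n) (Fin n) F} (h : ∀ i j, M i j ∈ A) : ∃ M', Im f M M' :=
  ⟨(Matrix.of fun i j => (⟨M i j, h i j⟩ : A)).map f, Matrix.of fun i j => ⟨M i j, h i j⟩, by ext i j; rfl, rfl⟩

theorem Im.unique {f : A →+* L} {M : Matrix (Fin n) (Fin n) F} {M' M'' : Matrix (Fin n) (Fin n) L} (h : Im f M M')
    (h' : Im f M M'') : M' = M'' := by
  ext i j
  obtain ⟨x, hx, hx'⟩ := h.apply i j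
  obtain ⟨y, hy, hy'⟩ := h'.apply i j
  rw [← hx', ← hy', Subtype.ext (hx.trans hy.symm)]

theorem Im.mul {f : A →+* L} {M N : Matrix (Fin n) (Fin n) F} {M' N' : Matrix (Fin n) (Fin n) L} (h : Im f M M')
    (h' : Im f N N') : Im f (M * N) (M' * N') := by
  obtain ⟨M0, rfl, rfl⟩ := h
  obtain ⟨N0, rfl, rfl⟩ := h'
  exact ⟨M0 * N0, Matrix.map_mul, Matrix.map_mul⟩

theorem Im.one (f : A →+* L) : Im f (1 : Matrix (Fin n) (Fin n) F) 1 :=
  ⟨1, Matrix.map_one _ (map_zero _) (map_one _), Matrix.map_one _ (map_zero _) (map_one _)⟩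

theorem Im.det {f : A →+* L} {M : Matrix (Fin n) (Fin n) F} {M' : Matrix (Fin n) (Fin n) L} (h : Im f M M') :
    ∃ x : A, (x : F) = M.det ∧ f x = M'.det := by
  obtain ⟨M0, rfl, rfl⟩ := h
  exact ⟨M0.det, RingHom.map_det A.subtype M0, RingHom.map_det f M0⟩

/-- all entries of `g` and of the inverse are in `A` -/
def InG (A : Subring F) (g : GL (Fin n) F) : Prop := (∀ i j, g.val i j ∈ A) ∧ ∀ i j, (g⁻¹).val i j ∈ A

/-- `g'` is the image of `g` -/
def IG (f : A →+* L) (g : GL (Fin n) F) (g' : GL (Fin n) L) : Prop :=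
  Im f g.val g'.val ∧ Im f (g⁻¹).val (g'⁻¹).val

theorem InG.mul {g h : GL (Fin n) F} (hg : InG A g) (hh : InG A h) : InG A (g * h) := by
  constructor
  · intro i j
    rw [Units.val_mul, Matrix.mul_apply]
    exact A.sum_mem fun a _ => A.mul_mem (hg.1 _ _) (hh.1 _ _)
  · intro i j
    rw [_root_.mul_inv_rev, Units.val_mul, Matrix.mul_apply]
    exact A.sum_mem fun a _ => A.mul_mem (hh.2 _ _) (hg.2 _ _)

theorem InG.inv {g : GL (Fin n) F} (hg : InG A g) : InG A g⁻¹ := ⟨hg.2, by rw [inv_inv]; exact hg.1⟩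

theorem IG.of {f : A →+* L} {g : GL (Fin n) F} {g' : GL (Fin n) L} (h : Im f g.val g'.val)
    (h' : ∀ i j, (g⁻¹).val i j ∈ A) : IG f g g' := by
  refine ⟨h, ?_⟩
  obtain ⟨N, hN⟩ := Im.exists f h'
  have h1 : Im f (g.val * (g⁻¹).val) (g'.val * N) := h.mul hN
  rw [← Units.val_mul, mul_inv_cancel, Units.val_one] at h1
  have h2 : g'.val * N = 1 := h1.unique (Im.one f)
  have h3 : (g'⁻¹).val = N := by
    calc (g'⁻¹).val = (g'⁻¹).val * (g'.val * N) := by rw [h2, mul_one]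
      _ = N := by
        rw [← mul_assoc, ← Units.val_mul, inv_mul_cancel, Units.val_one, one_mul]
  rw [h3]
  exact hN

theorem IG.exists (f : A →+* L) {g : GL (Fin n) F} (h : InG A g) : ∃ g', IG f g g' := by
  obtain ⟨M, hM⟩ := Im.exists f h.1
  obtain ⟨N, hN⟩ := Im.exists f h.2
  have h1 : M * N = 1 := by
    have h2 : Im f (g.val * (g⁻¹).val) (M * N) := hM.mul hN
    rw [← Units.val_mul, mul_inv_cancel, Units.val_one] at h2
    exact h2.unique (Im.one f)
  have h2 : N * M = 1 := by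
    have h2 : Im f ((g⁻¹).val * g.val) (N * M) := hN.mul hM
    rw [← Units.val_mul, inv_mul_cancel, Units.val_one] at h2
    exact h2.unique (Im.one f)
  exact ⟨⟨M, N, h1, h2⟩, hM, hN⟩

theorem IG.unique {f : A →+* L} {g : GL (Fin n) F} {g' g'' : GL (Fin n) L} (h : IG f g g') (h' : IG f g g'') :
    g' = g'' := Units.ext (h.1.unique h'.1)

theorem IG.mul {f : A →+* L} {g h : GL (Fin n) F} {g' h' : GL (Fin n) L} (hg : IG f g g') (hh : IG f h h') :
    IG f (g * h) (g' * h') := by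
  refine ⟨?_, ?_⟩
  · rw [Units.val_mul, Units.val_mul]
    exact hg.1.mul hh.1
  · rw [_root_.mul_inv_rev, _root_.mul_inv_rev, Units.val_mul, Units.val_mul]
    exact hh.2.mul hg.2

theorem IG.inv {f : A →+* L} {g : GL (Fin n) F} {g' : GL (Fin n) L} (hg : IG f g g') : IG f g⁻¹ g'⁻¹ :=
  ⟨hg.2, by rw [inv_inv, inv_inv]; exact hg.1⟩

theorem pow_img {f : A →+* L} {π : Fˣ} {π' : Lˣ} (h : (π : F) ∈ A) (h' : ((π⁻¹ : Fˣ) : F) ∈ A)
    (hf : ∀ x : A, (x : F) = π → (π' : L) = f x) (k : ℤ) :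
    ∃ x : A, (x : F) = ((π ^ k : Fˣ) : F) ∧ f x = ((π' ^ k : Lˣ) : L) := by
  obtain ⟨p, hp⟩ : ∃ p : Aˣ, p = ⟨⟨π, h⟩, ⟨_, h'⟩, Subtype.ext (by
      show (π : F) * ((π⁻¹ : Fˣ) : F) = 1
      rw [← Units.val_mul, mul_inv_cancel, Units.val_one]), Subtype.ext (by
      show ((π⁻¹ : Fˣ) : F) * (π : F) = 1
      rw [← Units.val_mul, inv_mul_cancel, Units.val_one])⟩ := ⟨_, rfl⟩
  have h1 : Units.map (A.subtype : A →* F) p = π := by
    apply Units.ext
    rw [hp]
    rfl
  have h2 : Units.map (f : A →* L) p = π' := by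
    apply Units.ext
    rw [Units.coe_map]
    refine (hf _ ?_).symm
    rw [hp]
  refine ⟨((p ^ k : Aˣ) : A), ?_, ?_⟩
  · rw [← h1, ← map_zpow]
    rfl
  · rw [← h2, ← map_zpow]
    rfl

theorem InG.dg {π : Fˣ} (h : (π : F) ∈ A) (h' : ((π⁻¹ : Fˣ) : F) ∈ A) (d : Fin n → ℤ) : InG A (dg π d) := by
  have key : ∀ k : ℤ, ((π ^ k : Fˣ) : F) ∈ A := by
    intro k
    obtain ⟨x, hx, -⟩ := pow_img (f := RingHom.id A |>.comp (RingHom.id A) |> A.subtype.comp) (π' := π) h h'
      (fun x hx => hx.symm) k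
    rw [← hx]
    exact x.2
  constructor
  · intro i j
    rw [dg_val, Matrix.diagonal_apply]
    split_ifs
    · exact key _
    · exact A.zero_mem
  · intro i j
    rw [dg_inv, dg_val, Matrix.diagonal_apply]
    split_ifs
    · exact key _
    · exact A.zero_mem

theorem IG.dg {f : A →+* L} {π : Fˣ} {π' : Lˣ} (h : (π : F) ∈ A) (h' : ((π⁻¹ : Fˣ) : F) ∈ A)
    (hf : ∀ x : A, (x : F) = π → (π' : L) = f x) (d : Fin n → ℤ) : IG f (dg π d) (dg π' d) := by
  refine IG.of (Im.of (InG.dg h h' d).1 fun i j x hx => ?_) (InG.dg h h' d).2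
  rw [dg_val, Matrix.diagonal_apply] at hx ⊢
  split_ifs at hx ⊢ with hij
  · obtain ⟨y, hy, hy'⟩ := pow_img h h' hf (d i)
    rw [← hy', Subtype.ext (hy.trans hx.symm)]
  · have : x = 0 := Subtype.ext hx
    rw [this, map_zero]

section

variable {v : F → ℤ} {w : L → ℤ} {S : Finset F} {f : A →+* L}

theorem ge_iff (h : Pres v w S A f) {x : A} (hx : (x : F) ∈ S) : Ge v 0 (x : F) ↔ Ge w 0 (f x) := by
  by_cases h0 : (x : F) = 0
  · have h1 : x = 0 := Subtype.ext h0
    rw [h0, h1, map_zero]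
    exact ⟨fun _ h => absurd rfl h, fun _ h => absurd rfl h⟩
  · have h1 := h.ne x hx h0
    have h2 := h.val x hx h0
    constructor
    · intro h3 _
      rw [h2]
      exact h3 h0
    · intro h3 _
      rw [← h2]
      exact h3 h1

/-- the entries of a matrix, of its inverse, and the determinant -/
noncomputable def En (g : GL (Fin n) F) : Finset F := by
  classical
  exact (Finset.univ.image fun p : Fin n × Fin n => g.val p.1 p.2) ∪
    (Finset.univ.image fun p : Fin n × Fin n => (g⁻¹).val p.1 p.2) ∪ {g.val.det}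

theorem mem_En (g : GL (Fin n) F) (i j : Fin n) : g.val i j ∈ En g := by
  classical
  unfold En
  exact Finset.mem_union_left _ (Finset.mem_union_left _ (Finset.mem_image.2 ⟨(i, j), Finset.mem_univ _, rfl⟩))

theorem mem_En' (g : GL (Fin n) F) (i j : Fin n) : (g⁻¹).val i j ∈ En g := by
  classical
  unfold En
  exact Finset.mem_union_left _ (Finset.mem_union_right _ (Finset.mem_image.2 ⟨(i, j), Finset.mem_univ _, rfl⟩))

theorem det_mem_En (g : GL (Fin n) F) : g.val.det ∈ En g := by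
  classical
  unfold En
  exact Finset.mem_union_right _ (Finset.mem_singleton_self _)

theorem InG.of_sub (h : Pres v w S A f) {g : GL (Fin n) F} (hg : En g ⊆ S) : InG A g :=
  ⟨fun i j => h.sub _ (hg (mem_En g i j)), fun i j => h.sub _ (hg (mem_En' g i j))⟩

theorem int_img (h : Pres v w S A f) {g : GL (Fin n) F} {g' : GL (Fin n) L} (hg : En g ⊆ S) (hi : Int v g)
    (hgg : IG f g g') : Int w g' := by
  constructor
  · intro i j
    obtain ⟨x, hx, hx'⟩ := hgg.1.apply i j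
    rw [← hx']
    refine (ge_iff h ?_).1 ?_
    · rw [hx]
      exact hg (mem_En g i j)
    · rw [hx]
      exact hi.1 i j
  · obtain ⟨x, hx, hx'⟩ := hgg.1.det
    rw [← hx', h.val x ?_ ?_, hx]
    · exact hi.2
    · rw [hx]
      exact hg (det_mem_En g)
    · rw [hx]
      exact g.det.ne_zero

end

end Pool.Agent.H25.DI
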