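import Pool.Agent.H10.RA.Val
import Mathlib.LinearAlgebra.Matrix.Transvection

/-!
# H25 DI, Smi: the Smith form over a discrete valuation
-/

set_option autoImplicit false

namespace Pool.Agent.H25.DI

open Matrix Pool.Agent.H54.TT Pool.Agent.H10.RA

section

variable {F : Type} [Field F]

/-- integral matrices with unit determinant -/
def IM {m : Type} [Fintype m] [DecidableEq m] (v : F → ℤ) (U : Matrix m m F) : Prop :=
  (∀ i j, Ge v 0 (U i j)) ∧ U.det ≠ 0 ∧ v U.det = 0

variable {v : F → ℤ} (hv : IsDV v) {m k : Type} [Fintype m] [DecidableEq m] [Fintype k] [DecidableEq k]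

include hv

theorem ge_one : Ge v 0 (1 : F) := fun _ => by rw [hv.one]

omit hv in
theorem ge_ite {p : Prop} [Decidable p] {a b : F} (ha : Ge v 0 a) (hb : Ge v 0 b) : Ge v 0 (if p then a else b) := by
  split_ifs
  · exact ha
  · exact hb

theorem IM.one : IM v (1 : Matrix m m F) := by
  refine ⟨fun i j => ?_, ?_, ?_⟩
  · rw [Matrix.one_apply]
    exact ge_ite (ge_one hv) (ge_zero hv 0)
  · rw [Matrix.det_one]
    exact one_ne_zero
  · rw [Matrix.det_one, hv.one]

theorem IM.mul {U V : Matrix m m F} (hU : IM v U) (hV : IM v V) : IM v (U * V) := by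
  refine ⟨fun i j => ?_, ?_, ?_⟩
  · rw [Matrix.mul_apply]
    refine ge_sum hv _ fun a _ => ?_
    have := ge_mul hv (hU.1 i a) (hV.1 a j)
    rwa [add_zero] at this
  · rw [Matrix.det_mul]
    exact mul_ne_zero hU.2.1 hV.2.1
  · rw [Matrix.det_mul, hv.mul _ _ hU.2.1 hV.2.1, hU.2.2, hV.2.2, add_zero]

theorem IM.list {l : List (Matrix m m F)} (h : ∀ U ∈ l, IM v U) : IM v l.prod := by
  induction l with
  | nil => exact IM.one hv
  | cons a l ih =>
    rw [List.prod_cons]
    exact IM.mul hv (h a (List.mem_cons_self ..)) (ih fun U hU => h U (List.mem_cons_of_mem _ hU))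

theorem IM.trans {i j : m} (hij : i ≠ j) {c : F} (hc : Ge v 0 c) : IM v (transvection i j c) := by
  refine ⟨fun a b => ?_, ?_, ?_⟩
  · unfold transvection
    rw [Matrix.add_apply]
    refine ge_add hv ?_ ?_
    · rw [Matrix.one_apply]
      exact ge_ite (ge_one hv) (ge_zero hv 0)
    · rw [Matrix.single_apply]
      exact ge_ite hc (ge_zero hv 0)
  · rw [det_transvection_of_ne i j hij]
    exact one_ne_zero
  · rw [det_transvection_of_ne i j hij, hv.one]

theorem v_sign (σ : Equiv.Perm m) : ((Equiv.Perm.sign σ : ℤ) : F) ≠ 0 ∧ v ((Equiv.Perm.sign σ : ℤ) : F) = 0 := by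
  rcases Int.units_eq_one_or (Equiv.Perm.sign σ) with h | h
  · rw [h]
    simp only [Units.val_one, Int.cast_one]
    exact ⟨one_ne_zero, hv.one⟩
  · rw [h]
    simp only [Units.val_neg, Units.val_one, Int.cast_neg, Int.cast_one]
    exact ⟨neg_ne_zero.2 one_ne_zero, hv.neg_one⟩

theorem IM.perm (σ : Equiv.Perm m) : IM v ((1 : Matrix m m F).submatrix σ id) := by
  refine ⟨fun i j => ?_, ?_, ?_⟩
  · rw [Matrix.submatrix_apply, Matrix.one_apply]
    exact ge_ite (ge_one hv) (ge_zero hv 0)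
  · rw [Matrix.det_permute, Matrix.det_one, mul_one]
    exact (v_sign hv σ).1
  · rw [Matrix.det_permute, Matrix.det_one, mul_one]
    exact (v_sign hv σ).2

theorem IM.perm' (σ : Equiv.Perm m) : IM v ((1 : Matrix m m F).submatrix id σ) := by
  refine ⟨fun i j => ?_, ?_, ?_⟩
  · rw [Matrix.submatrix_apply, Matrix.one_apply]
    exact ge_ite (ge_one hv) (ge_zero hv 0)
  · rw [Matrix.det_permute', Matrix.det_one, mul_one]
    exact (v_sign hv σ).1
  · rw [Matrix.det_permute', Matrix.det_one, mul_one]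
    exact (v_sign hv σ).2

omit hv in
theorem IM.sub (e : k ≃ m) {U : Matrix m m F} (hU : IM v U) : IM v (U.submatrix e e) := by
  refine ⟨fun i j => hU.1 _ _, ?_, ?_⟩
  · rw [Matrix.det_submatrix_equiv_self]
    exact hU.2.1
  · rw [Matrix.det_submatrix_equiv_self]
    exact hU.2.2

theorem IM.blocks {U : Matrix m m F} (hU : IM v U) : IM v (Matrix.fromBlocks U 0 0 (1 : Matrix k k F)) := by
  refine ⟨fun i j => ?_, ?_, ?_⟩
  · rcases i with i | i <;> rcases j with j | j
    · exact hU.1 i j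
    · exact ge_zero hv 0
    · exact ge_zero hv 0
    · rw [Matrix.fromBlocks_apply₂₂, Matrix.one_apply]
      exact ge_ite (ge_one hv) (ge_zero hv 0)
  · rw [Matrix.det_fromBlocks_zero₂₁, Matrix.det_one, mul_one]
    exact hU.2.1
  · rw [Matrix.det_fromBlocks_zero₂₁, Matrix.det_one, mul_one]
    exact hU.2.2

/-- one step: an entry of least valuation clears its row and its column -/
theorem two_block {r : ℕ} (M : Matrix (Fin r ⊕ Unit) (Fin r ⊕ Unit) F) :
    ∃ U U' : Matrix (Fin r ⊕ Unit) (Fin r ⊕ Unit) F, IM v U ∧ IM v U' ∧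
      ∃ (A : Matrix (Fin r) (Fin r) F) (D : Matrix Unit Unit F), U * M * U' = Matrix.fromBlocks A 0 0 D := by
  classical
  by_cases hM : M = 0
  · refine ⟨1, 1, IM.one hv, IM.one hv, 0, 0, ?_⟩
    rw [hM, mul_zero, zero_mul, Matrix.fromBlocks_zero]
  obtain ⟨T, hT⟩ : ∃ T : Finset ((Fin r ⊕ Unit) × (Fin r ⊕ Unit)), T = Finset.univ.filter fun p => M p.1 p.2 ≠ 0 := ⟨_, rfl⟩
  have hTne : T.Nonempty := by
    by_contra hne
    rw [Finset.not_nonempty_iff_eq_empty] at hne
    apply hM
    ext p q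
    by_contra hpq
    have : (p, q) ∈ T := by
      rw [hT, Finset.mem_filter]
      exact ⟨Finset.mem_univ _, hpq⟩
    rw [hne] at this
    exact absurd this (Finset.notMem_empty _)
  obtain ⟨⟨i0, j0⟩, hij, hmin⟩ := Finset.exists_min_image T (fun p => v (M p.1 p.2)) hTne
  have hij' : M i0 j0 ≠ 0 := by
    rw [hT] at hij
    exact (Finset.mem_filter.1 hij).2
  have hmin' : ∀ p q, M p q ≠ 0 → v (M i0 j0) ≤ v (M p q) := fun p q hpq =>
    hmin (p, q) (by rw [hT, Finset.mem_filter]; exact ⟨Finset.mem_univ _, hpq⟩)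
  obtain ⟨σ, hσ⟩ : ∃ σ : Equiv.Perm (Fin r ⊕ Unit), σ (Sum.inr ()) = i0 := ⟨Equiv.swap (Sum.inr ()) i0, Equiv.swap_apply_left _ _⟩
  obtain ⟨τ, hτ⟩ : ∃ τ : Equiv.Perm (Fin r ⊕ Unit), τ (Sum.inr ()) = j0 := ⟨Equiv.swap (Sum.inr ()) j0, Equiv.swap_apply_left _ _⟩
  obtain ⟨M1, hM1⟩ : ∃ M1 : Matrix (Fin r ⊕ Unit) (Fin r ⊕ Unit) F, M1 = M.submatrix σ τ := ⟨_, rfl⟩
  have e1 : (1 : Matrix (Fin r ⊕ Unit) (Fin r ⊕ Unit) F).submatrix σ id * M * (1 : Matrix _ _ F).submatrix id τ = M1 := by
    rw [hM1]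
    ext i j
    rw [Matrix.submatrix_apply, Matrix.mul_apply, Finset.sum_eq_single (τ j)]
    · rw [Matrix.mul_apply, Finset.sum_eq_single (σ i)]
      · rw [Matrix.submatrix_apply, Matrix.submatrix_apply, id_eq, id_eq, Matrix.one_apply_eq, Matrix.one_apply_eq,
          one_mul, mul_one]
      · intro b _ hb
        rw [Matrix.submatrix_apply, id, Matrix.one_apply_ne (Ne.symm hb), zero_mul]
      · intro h
        exact absurd (Finset.mem_univ _) h
    · intro b _ hb
      rw [Matrix.submatrix_apply, id, Matrix.one_apply_ne hb, mul_zero]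
    · intro h
      exact absurd (Finset.mem_univ _) h
  have hlast : M1 (Sum.inr ()) (Sum.inr ()) = M i0 j0 := by
    rw [hM1, Matrix.submatrix_apply, hσ, hτ]
  have hlast0 : M1 (Sum.inr ()) (Sum.inr ()) ≠ 0 := by
    rw [hlast]
    exact hij'
  have hq : ∀ i j, Ge v 0 (-M1 i j / M1 (Sum.inr ()) (Sum.inr ())) := by
    intro i j h
    have h1 : M1 i j ≠ 0 := by
      rintro h1
      rw [h1, neg_zero, zero_div] at h
      exact h rfl
    rw [div_eq_mul_inv, hv.mul _ _ (neg_ne_zero.2 h1) (inv_ne_zero hlast0), hv.neg h1, hv.inv hlast0, hlast]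
    have h2 : v (M i0 j0) ≤ v (M1 i j) := by
      rw [hM1] at h1 ⊢
      exact hmin' _ _ h1
    linarith
  have hcol : IM v (Pivot.listTransvecCol M1).prod := by
    refine IM.list hv fun U hU => ?_
    unfold Pivot.listTransvecCol at hU
    rw [List.mem_ofFn] at hU
    obtain ⟨i, rfl⟩ := hU
    exact IM.trans hv (by simp) (hq _ _)
  have hrow : IM v (Pivot.listTransvecRow M1).prod := by
    refine IM.list hv fun U hU => ?_
    unfold Pivot.listTransvecRow at hU
    rw [List.mem_ofFn] at hU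
    obtain ⟨i, rfl⟩ := hU
    exact IM.trans hv (by simp) (hq _ _)
  have hblk := Pivot.isTwoBlockDiagonal_listTransvecCol_mul_mul_listTransvecRow M1 hlast0
  refine ⟨(Pivot.listTransvecCol M1).prod * (1 : Matrix (Fin r ⊕ Unit) (Fin r ⊕ Unit) F).submatrix σ id,
    (1 : Matrix _ _ F).submatrix id τ * (Pivot.listTransvecRow M1).prod, IM.mul hv hcol (IM.perm hv σ),
    IM.mul hv (IM.perm' hv τ) hrow,
    ((Pivot.listTransvecCol M1).prod * M1 * (Pivot.listTransvecRow M1).prod).toBlocks₁₁,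
    ((Pivot.listTransvecCol M1).prod * M1 * (Pivot.listTransvecRow M1).prod).toBlocks₂₂, ?_⟩
  have e2 : (Pivot.listTransvecCol M1).prod * (1 : Matrix (Fin r ⊕ Unit) (Fin r ⊕ Unit) F).submatrix σ id * M *
      ((1 : Matrix _ _ F).submatrix id τ * (Pivot.listTransvecRow M1).prod) =
      (Pivot.listTransvecCol M1).prod * M1 * (Pivot.listTransvecRow M1).prod := by
    rw [← e1]
    simp only [Matrix.mul_assoc]
  rw [e2]
  conv_lhs => rw [← Matrix.fromBlocks_toBlocks ((Pivot.listTransvecCol M1).prod * M1 * (Pivot.listTransvecRow M1).prod)]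
  rw [hblk.1, hblk.2]

theorem smith_aux (r : ℕ) : ∀ (m : Type) [Fintype m] [DecidableEq m] (M : Matrix m m F), Fintype.card m = r →
    ∃ U U' : Matrix m m F, IM v U ∧ IM v U' ∧ ∃ d : m → F, U * M * U' = Matrix.diagonal d := by
  classical
  induction r with
  | zero =>
    intro m _ _ M hm
    have : IsEmpty m := Fintype.card_eq_zero_iff.1 hm
    exact ⟨1, 1, IM.one hv, IM.one hv, fun _ => 0, by ext i; exact isEmptyElim i⟩
  | succ r ih =>
    intro m _ _ M hm
    have hc : Fintype.card (Fin r ⊕ Unit) = Fintype.card m := by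
      rw [hm, Fintype.card_sum, Fintype.card_fin, Fintype.card_unit]
    obtain ⟨e⟩ : Nonempty (Fin r ⊕ Unit ≃ m) := Fintype.card_eq.1 hc
    obtain ⟨U, U', hU, hU', A, D, h1⟩ := two_block hv (M.submatrix e e)
    obtain ⟨W, W', hW, hW', d, h2⟩ := ih (Fin r) A (Fintype.card_fin r)
    obtain ⟨V, hV⟩ : ∃ V, V = Matrix.fromBlocks W 0 0 (1 : Matrix Unit Unit F) * U := ⟨_, rfl⟩
    obtain ⟨V', hV'⟩ : ∃ V', V' = U' * Matrix.fromBlocks W' 0 0 (1 : Matrix Unit Unit F) := ⟨_, rfl⟩
    have hVi : IM v V := by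
      rw [hV]
      exact IM.mul hv (IM.blocks hv hW) hU
    have hVi' : IM v V' := by
      rw [hV']
      exact IM.mul hv hU' (IM.blocks hv hW')
    have h3 : V * M.submatrix e e * V' = Matrix.diagonal (Sum.elim d fun _ => D () ()) := by
      have h4 : V * M.submatrix e e * V' = Matrix.fromBlocks W 0 0 (1 : Matrix Unit Unit F) * (U * M.submatrix e e * U') *
          Matrix.fromBlocks W' 0 0 (1 : Matrix Unit Unit F) := by
        rw [hV, hV']
        simp only [Matrix.mul_assoc]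
      rw [h4, h1, Matrix.fromBlocks_multiply, Matrix.fromBlocks_multiply]
      simp only [Matrix.mul_zero, Matrix.zero_mul, add_zero, zero_add, Matrix.mul_one, Matrix.one_mul]
      rw [h2, ← Matrix.fromBlocks_diagonal]
      congr 1
    refine ⟨V.submatrix e.symm e.symm, V'.submatrix e.symm e.symm, IM.sub e.symm hVi, IM.sub e.symm hVi',
      (Sum.elim d fun _ => D () ()) ∘ e.symm, ?_⟩
    have h5 : M = (M.submatrix e e).submatrix e.symm e.symm := by
      ext i j
      simp
    conv_lhs => rw [h5]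
    rw [Matrix.submatrix_mul_equiv, Matrix.submatrix_mul_equiv, h3]
    exact Matrix.submatrix_diagonal_equiv _ e.symm

end

end Pool.Agent.H25.DI
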